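import Pool.Agent.QSB.StmtsT

set_option autoImplicit false

/-!
# Squad QSB, row SYO: the datum of `SO (p, p + d)` is a datum of a symmetric space
-/

namespace Pool.Agent.QSB.H72

open Matrix Finset Pool.Agent.QSX Pool.Agent.QSN

variable {p d : ℕ}

/-- the Lie algebra -/
private def gO (p d : ℕ) : Submodule ℝ (Matrix (Fin (2 * p + d)) (Fin (2 * p + d)) ℝ) where
  carrier := {x | ∀ i j, x (sg p d j) (sg p d i) = - x i j}
  add_mem' := by
    intro x y hx hy i j
    rw [Matrix.add_apply, Matrix.add_apply, hx i j, hy i j]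
    ring
  zero_mem' := by
    intro i j
    simp
  smul_mem' := by
    intro r x hx i j
    rw [Matrix.smul_apply, Matrix.smul_apply, hx i j, smul_eq_mul, smul_eq_mul]
    ring

private theorem mem_gO {x : Matrix (Fin (2 * p + d)) (Fin (2 * p + d)) ℝ} :
    x ∈ gO p d ↔ ∀ i j, x (sg p d j) (sg p d i) = - x i j := Iff.rfl

private theorem key {x y : Matrix (Fin (2 * p + d)) (Fin (2 * p + d)) ℝ}
    (hx : x ∈ gO p d) (hy : y ∈ gO p d) (i j : Fin (2 * p + d)) :
    (x * y) (sg p d j) (sg p d i) = (y * x) i j := by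
  rw [mem_gO] at hx hy
  rw [Matrix.mul_apply, Matrix.mul_apply,
    ← Equiv.sum_comp (Function.Involutive.toPerm (sg p d) sg_sg)]
  refine Finset.sum_congr rfl fun k _ => ?_
  rw [Function.Involutive.coe_toPerm, hx k j, hy i k]
  ring

/-- the regular element -/
private noncomputable def aO (p d : ℕ) (i : Fin (2 * p + d)) : ℝ :=
  if (i : ℕ) < p then (p : ℝ) - (i : ℕ) else
    if (i : ℕ) < p + d then 0 else (p : ℝ) + d - 1 - (i : ℕ)

private theorem aO_mid {i : Fin (2 * p + d)} (h : Md p d i) : aO p d i = 0 := by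
  unfold aO
  obtain ⟨h1, h2⟩ := h
  rw [if_neg (by omega), if_pos h2]

private theorem aO_sg (i : Fin (2 * p + d)) : aO p d (sg p d i) = - aO p d i := by
  by_cases h : Md p d i
  · rw [sg_mid h, aO_mid h, neg_zero]
  · rw [sg_out h]
    have hi := i.2
    unfold Md at h
    have hv : ((Fin.rev i : Fin (2 * p + d)) : ℕ) = 2 * p + d - (i + 1) := Fin.val_rev i
    unfold aO
    rw [hv]
    by_cases h1 : (i : ℕ) < p
    · rw [if_neg (by omega), if_neg (by omega), if_pos h1]
      rw [Nat.cast_sub (by omega)]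
      push_cast
      ring
    · have h2 : ¬ (i : ℕ) < p + d := by omega
      rw [if_pos (by omega), if_neg h1, if_neg h2]
      rw [Nat.cast_sub (by omega)]
      push_cast
      ring

private theorem aO_lt {i j : Fin (2 * p + d)} (hij : i < j) (h : ¬ (Md p d i ∧ Md p d j)) :
    aO p d j < aO p d i := by
  have hi := i.2
  have hj := j.2
  rw [Fin.lt_def] at hij
  unfold Md at h
  unfold aO
  have hc : ((i : ℕ) : ℝ) < ((j : ℕ) : ℝ) := by exact_mod_cast hij
  have hd : (0 : ℝ) ≤ d := Nat.cast_nonneg d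
  by_cases i1 : (i : ℕ) < p
  · have i1' : ((i : ℕ) : ℝ) + 1 ≤ p := by exact_mod_cast i1
    rw [if_pos i1]
    by_cases j1 : (j : ℕ) < p
    · rw [if_pos j1]
      linarith
    · rw [if_neg j1]
      by_cases j2 : (j : ℕ) < p + d
      · rw [if_pos j2]
        linarith
      · rw [if_neg j2]
        have j2' : (p : ℝ) + d ≤ (j : ℕ) := by exact_mod_cast not_lt.1 j2
        linarith
  · rw [if_neg i1, if_neg (by omega : ¬ (j : ℕ) < p)]
    by_cases i2 : (i : ℕ) < p + d
    · have j2 : ¬ (j : ℕ) < p + d := by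
        intro hcon
        exact h ⟨⟨by omega, i2⟩, ⟨by omega, hcon⟩⟩
      rw [if_pos i2, if_neg j2]
      have j2' : (p : ℝ) + d ≤ (j : ℕ) := by exact_mod_cast not_lt.1 j2
      linarith
    · rw [if_neg i2, if_neg (by omega : ¬ (j : ℕ) < p + d)]
      linarith

private theorem aO_le {i j : Fin (2 * p + d)} (hij : i ≤ j) : aO p d j ≤ aO p d i := by
  rcases eq_or_lt_of_le hij with h | h
  · rw [h]
  · by_cases hm : Md p d i ∧ Md p d j
    · rw [aO_mid hm.1, aO_mid hm.2]
    · exact (aO_lt h hm).le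

private theorem aO_ne {i j : Fin (2 * p + d)} (hij : i ≠ j) (h : ¬ (Md p d i ∧ Md p d j)) :
    aO p d i ≠ aO p d j := by
  rcases lt_or_gt_of_ne hij with h1 | h1
  · exact (aO_lt h1 h).ne'
  · exact (aO_lt h1 (fun hh => h ⟨hh.2, hh.1⟩)).ne

private theorem lieO : ∀ x ∈ gO p d, ∀ y ∈ gO p d, x * y - y * x ∈ gO p d := by
  intro x hx y hy i j
  have h1 := key hx hy i j
  have h2 := key hy hx i j
  rw [Matrix.sub_apply, Matrix.sub_apply, h1, h2]
  ring

private theorem trO : ∀ x ∈ gO p d, xᵀ ∈ gO p d := by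
  intro x hx i j
  rw [Matrix.transpose_apply, Matrix.transpose_apply]
  exact hx j i

private theorem bO (c : Fin (2 * p + d) → ℝ) :
    (∀ i, c (sg p d i) = - c i) ↔ diagonal c ∈ gO p d := by
  constructor
  · intro hc i j
    by_cases hij : i = j
    · subst hij
      rw [Matrix.diagonal_apply_eq, Matrix.diagonal_apply_eq]
      exact hc i
    · have hs : sg p d j ≠ sg p d i := by
        intro hcon
        apply hij
        rw [← sg_sg i, ← hcon, sg_sg]
      rw [Matrix.diagonal_apply_ne _ hs, Matrix.diagonal_apply_ne _ hij, neg_zero]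
  · intro hc i
    have h := mem_gO.1 hc i i
    rw [Matrix.diagonal_apply_eq, Matrix.diagonal_apply_eq] at h
    exact h

private theorem nO (x : Matrix (Fin (2 * p + d)) (Fin (2 * p + d)) ℝ) :
    (SU x ∧ (∀ i j, x (sg p d j) (sg p d i) = - x i j) ∧
        ∀ i j, Md p d i → Md p d j → x i j = 0) ↔
      x ∈ gO p d ∧ ∀ i j, x i j ≠ 0 → aO p d j < aO p d i := by
  constructor
  · rintro ⟨h1, h2, h3⟩
    refine ⟨h2, fun i j hij => ?_⟩
    have hlt : i < j := by
      by_contra hcon
      exact hij (h1 i j (not_lt.1 hcon))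
    exact aO_lt hlt (fun hm => hij (h3 i j hm.1 hm.2))
  · rintro ⟨h2, h⟩
    refine ⟨fun i j hij => ?_, h2, fun i j hi hj => ?_⟩
    · by_contra hcon
      have h3 : aO p d j < aO p d i := h i j hcon
      exact absurd (aO_le (p := p) (d := d) hij) (not_le.2 h3)
    · by_contra hcon
      have h3 : aO p d j < aO p d i := h i j hcon
      rw [aO_mid hi, aO_mid hj] at h3
      exact lt_irrefl _ h3

private theorem regO (x : Matrix (Fin (2 * p + d)) (Fin (2 * p + d)) ℝ) (hx : x ∈ gO p d)
    (hsym : xᵀ = x) (hcomm : diagonal (aO p d) * x = x * diagonal (aO p d)) :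
    ∃ c, x = diagonal c := by
  refine ⟨fun i => x i i, ?_⟩
  ext i j
  by_cases hij : i = j
  · subst hij
    rw [Matrix.diagonal_apply_eq]
  · rw [Matrix.diagonal_apply_ne _ hij]
    by_cases hm : Md p d i ∧ Md p d j
    · have h1 : x (sg p d j) (sg p d i) = - x i j := hx i j
      rw [sg_mid hm.1, sg_mid hm.2] at h1
      have h2 : x j i = x i j := by
        have := congrFun (congrFun hsym i) j
        rw [Matrix.transpose_apply] at this
        exact this
      rw [h2] at h1
      linarith
    · have h1 := congrFun (congrFun hcomm i) j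
      rw [Matrix.diagonal_mul, Matrix.mul_diagonal] at h1
      have h3 : (aO p d i - aO p d j) * x i j = 0 := by linarith
      rcases mul_eq_zero.1 h3 with h4 | h4
      · exact absurd (sub_eq_zero.1 h4) (aO_ne hij hm)
      · exact h4

/-- **SYO**. -/
theorem syo : SyoStmt := by
  intro p d
  exact ⟨{ g := gO p d, lie := lieO, tr := trO, b_mem := fun c => bO c, a₀ := ⟨aO p d, aO_sg⟩,
            n_mem := fun x => nO x, reg := fun x hx h1 h2 => regO x hx h1 h2 }⟩

end Pool.Agent.QSB.H72
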