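import Pool.Agent.QSB.StmtsB2

/-!
# WKT of squad QSB: the vectors `w_k` (port of `Helper54_QSN/WKT`)
-/

set_option autoImplicit false

namespace Pool.Agent.QSB.H72

open Matrix Finset Pool.Agent.QSX Pool.Agent.QSN Pool.Agent.QSB

theorem wkt (brn : BrnStmt) (tpr : TprStmt) : WktStmt := by
  intro X hX H k
  classical
  have h1 : H.w k = hX.br hX.e (H.l k) (H.m k) := brn X hX (H.l k) (H.m k) (H.ne k)
  have h2 := (tpr X hX).2.2.1 (H.l k) (H.m k) (H.ne k) (H.top k)
  have hne : H.w k ≠ 0 := H.lin.ne_zero k
  have h4 : hX.comp (H.m k) = hX.comp (H.l k) := by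
    cases hL : hX.L (H.l k) (H.m k) with
    | nil =>
      exfalso
      apply hne
      rw [h1]
      unfold MB.br
      rw [hL]
      simp
    | cons t l =>
      have ht : t ∈ hX.L (H.l k) (H.m k) := by
        rw [hL]
        exact List.mem_cons_self
      have hc := hX.L_comp _ _ t ht
      exact hc.2.symm.trans hc.1
  have htop := H.top k
  refine ⟨h1, h2, ?_, h4, ?_, ?_⟩
  · rw [h1]
    unfold MB.br
    refine list_sum_mem ?_
    intro x hx
    rw [List.mem_map] at hx
    obtain ⟨t, ht, rfl⟩ := hx
    rw [List.mem_filter] at ht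
    refine Submodule.smul_mem _ _ (Submodule.subset_span ⟨t.1, ?_, rfl⟩)
    exact (h2 t ht.1).2.2
  · intro c hc
    have hm : hX.rt (H.m k) = (1 - c) • hX.rt (hX.top (hX.comp (H.l k))) := by
      apply LinearMap.ext
      intro a
      have e1 := congrArg (fun f => f a) htop
      have e2 := congrArg (fun f => f a) hc
      simp only [LinearMap.add_apply, LinearMap.smul_apply, smul_eq_mul] at e1 e2 ⊢
      linarith
    have hc1 : 1 - c ≠ 0 := by
      intro h
      rw [h, zero_smul] at hm
      exact hX.rt_ne _ hm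
    apply H.ne k (c / (1 - c))
    rw [hm, smul_smul, div_mul_cancel₀ _ hc1]
    exact hc
  · intro c hc
    rw [h4] at hc
    have hl : hX.rt (H.l k) = (1 - c) • hX.rt (hX.top (hX.comp (H.l k))) := by
      apply LinearMap.ext
      intro a
      have e1 := congrArg (fun f => f a) htop
      have e2 := congrArg (fun f => f a) hc
      simp only [LinearMap.add_apply, LinearMap.smul_apply, smul_eq_mul] at e1 e2 ⊢
      linarith
    have hc0 : c ≠ 0 := by
      intro h
      rw [h, zero_smul] at hc
      exact hX.rt_ne _ hc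
    apply H.ne k ((1 - c) / c)
    rw [hc, smul_smul, div_mul_cancel₀ _ hc0]
    exact hl

end Pool.Agent.QSB.H72
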