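import Pool.Agent.QSB.StmtsR

/-!
# Row TRW of squad QSB: transport of the weights in equal rank
-/

set_option autoImplicit false

namespace Pool.Agent.QSB.H72

open Matrix Finset Pool.Agent.QSX Pool.Agent.QSB

theorem trw : TrwStmt := by
  intro X Y T P hT hP hPi hTP hrk
  let P' : X.b →ₗ[ℝ] Y.b := LinearMap.codRestrict Y.b P hP
  have hPi' : Function.Injective P' := by
    intro a a' h
    apply hPi
    have := congrArg Subtype.val h
    exact this
  have hPs' : Function.Surjective P' :=
    (LinearMap.injective_iff_surjective_of_finrank_eq_finrank hrk).1 hPi'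
  let e : X.b ≃ₗ[ℝ] Y.b := LinearEquiv.ofBijective P' ⟨hPi', hPs'⟩
  refine ⟨e.symm.toLinearMap, e.symm.bijective, ?_⟩
  rintro ρ x ⟨hx, hw⟩
  refine ⟨hT x, ?_⟩
  intro d
  have hd : (d : Fin Y.m → ℝ) = P (e.symm d) := by
    have h1 : e (e.symm d) = d := e.apply_symm_apply d
    have h2 := congrArg Subtype.val h1
    exact h2.symm
  rw [hd, ← hTP (e.symm d) x]
  have h3 : (⟨_, X.stab (e.symm d) (e.symm d).2 x x.2⟩ : X.n) = ρ (e.symm d) • x := by
    apply Subtype.ext
    exact hw (e.symm d)
  rw [h3, map_smul]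
  rfl

end Pool.Agent.QSB.H72
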